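import Mathlib

/-!
# Superclub gives an inseparable family without Luzin subsequences

`W1` is the well-ordered set of all countable ordinals.
-/

open Set Cardinal Ordinal

namespace Pool.Agent.Results.MP_a36908_lc.Superclub

/-- The set `ω₁` of countable ordinals, as a well-ordered type. -/
abbrev W1 : Type := (ω₁ : Ordinal.{0}).ToType

/-- `S` is a superclub sequence on `ω₁`: `S α ⊆ α` for all `α`, and every uncountable `A ⊆ ω₁`
has an uncountable subset `B` such that `{α < ω₁ : B ∩ α = S α}` is stationary. -/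
def IsSuperclubSequence (S : W1 → Set W1) : Prop :=
  (∀ α, S α ⊆ Iio α) ∧
    ∀ A : Set W1, ¬ A.Countable →
      ∃ B ⊆ A, ¬ B.Countable ∧ IsStationary {α : W1 | B ∩ Iio α = S α}

/-- The superclub principle. -/
def SuperclubPrinciple : Prop := ∃ S : W1 → Set W1, IsSuperclubSequence S

/-- `A` is an almost disjoint family of (distinct) infinite subsets of `ω` indexed by `ω₁`. -/
def IsAlmostDisjoint (A : W1 → Set ℕ) : Prop :=
  (∀ β, (A β).Infinite) ∧ Function.Injective A ∧ ∀ β γ, β ≠ γ → (A β ∩ A γ).Finite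

/-- `B` separates `A`: both `{β : A β ⊆* B}` and `{β : A β ⊆* ω \ B}` have cardinality `ℵ₁`. -/
def Separates (B : Set ℕ) (A : W1 → Set ℕ) : Prop :=
  #{β : W1 | (A β \ B).Finite} = ℵ₁ ∧ #{β : W1 | (A β \ Bᶜ).Finite} = ℵ₁

/-- `A` is inseparable: it is almost disjoint and no infinite `B ⊆ ω` separates it. -/
def IsInseparable (A : W1 → Set ℕ) : Prop :=
  IsAlmostDisjoint A ∧ ∀ B : Set ℕ, B.Infinite → ¬ Separates B A

/-- `A` is a Luzin sequence: it is almost disjoint and for all `α < ω₁` and `n < ω` only finitely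
many `β < α` satisfy `A α ∩ A β ⊆ n`. -/
def IsLuzin (A : W1 → Set ℕ) : Prop :=
  IsAlmostDisjoint A ∧ ∀ (α : W1) (n : ℕ), {β : W1 | β < α ∧ A α ∩ A β ⊆ Iio n}.Finite

/-- `A` contains a Luzin subsequence: for some uncountable `X ⊆ ω₁`, with increasing enumeration
`e : ω₁ → ω₁`, the sequence `A ∘ e` is a Luzin sequence. -/
def ContainsLuzinSubsequence (A : W1 → Set ℕ) : Prop :=
  ∃ (X : Set W1) (e : W1 → W1), ¬ X.Countable ∧ StrictMono e ∧ range e = X ∧ IsLuzin (A ∘ e)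

/-! ### The combinatorial step -/

section Step

variable {ι : Type*} [Countable ι] [Infinite ι] {A : ι → Set ℕ}

omit [Countable ι] in
/-- One more point (and two more promises). -/
lemma exists_step (hinf : ∀ i, (A i).Infinite) (had : ∀ i j, i ≠ j → (A i ∩ A j).Finite)
    (st : Finset ℕ × Finset ι) (m : ℕ) (i : ι) (t : Option (Set ι × ι))
    (ht : ∀ p, t = some p → ∀ n : ℕ, {k ∈ p.1 | A k ∩ Iio n = A p.2 ∩ Iio n}.Infinite) :
    ∃ (st' : Finset ℕ × Finset ι) (a : ℕ), st'.1 = insert a st.1 ∧ st.2 ⊆ st'.2 ∧ i ∈ st'.2 ∧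
      m ≤ a ∧ (∀ x ∈ st.1, x < a) ∧ (∀ j ∈ st.2, a ∉ A j) ∧
      ∀ p, t = some p → (∃ k ∈ p.1, a ∈ A k) ∧
        ∃ k ∈ p.1, k ∉ st.2 ∧ k ∈ st'.2 ∧ ∀ x ∈ st'.1, x ∈ A k → x ∈ A p.2 := by
  classical
  obtain ⟨S, hSinf, hS⟩ : ∃ S : Set ι, S.Infinite ∧ ∀ p, t = some p → S = p.1 := by
    rcases t with _ | p
    · exact ⟨univ, infinite_univ, by simp⟩
    · refine ⟨p.1, ?_, ?_⟩
      · exact (ht p rfl 0).mono (fun k hk => hk.1)
      · intro q hq
        rw [Option.some.injEq] at hq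
        rw [hq]
  obtain ⟨k, hkS, hk⟩ : ∃ k ∈ S, k ∉ st.2 := by
    obtain ⟨k, hk⟩ := (hSinf.sdiff st.2.finite_toSet).nonempty
    exact ⟨k, hk.1, by simpa using hk.2⟩
  have hfin : (⋃ j ∈ st.2, A k ∩ A j).Finite := by
    refine Set.Finite.biUnion st.2.finite_toSet ?_
    intro j hj
    exact had k j (by rintro rfl; exact hk hj)
  obtain ⟨a, ha⟩ : ∃ a, a ∈ (A k \ ((⋃ j ∈ st.2, A k ∩ A j) ∪ Iic (m + st.1.sup id))) := by
    refine ((hinf k).sdiff (hfin.union (finite_Iic _))).nonempty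
  rw [mem_sdiff, mem_union, not_or] at ha
  obtain ⟨hak, ha1, ha2⟩ := ha
  have ha3 : m + st.1.sup id < a := by simpa using ha2
  -- the new promise
  have hnew : ∀ p, t = some p → ∃ k' ∈ p.1, k' ∉ st.2 ∧ A k' ∩ Iio (a + 1) = A p.2 ∩ Iio (a + 1) := by
    intro p hp
    obtain ⟨k', hk'⟩ := ((ht p hp (a + 1)).sdiff st.2.finite_toSet).nonempty
    exact ⟨k', hk'.1.1, by simpa using hk'.2, hk'.1.2⟩
  have hkey : ∃ F : Finset ι, ∀ p, t = some p → ∃ k' ∈ p.1, k' ∉ st.2 ∧ k' ∈ F ∧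
      A k' ∩ Iio (a + 1) = A p.2 ∩ Iio (a + 1) := by
    rcases t with _ | p
    · exact ⟨∅, by simp⟩
    · obtain ⟨k', h1, h2, h3⟩ := hnew p rfl
      refine ⟨{k'}, ?_⟩
      intro q hq
      rw [Option.some.injEq] at hq
      subst hq
      exact ⟨k', h1, h2, by simp, h3⟩
  obtain ⟨F, hF⟩ := hkey
  refine ⟨(insert a st.1, insert i (st.2 ∪ F)), a, rfl, ?_, ?_, ?_, ?_, ?_, ?_⟩
  · intro j hj
    simp [hj]
  · simp
  · omega
  · intro x hx
    have : x ≤ st.1.sup id := Finset.le_sup (f := id) hx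
    omega
  · intro j hj haj
    apply ha1
    simp only [mem_iUnion]
    exact ⟨j, hj, hak, haj⟩
  · intro p hp
    refine ⟨⟨k, hS p hp ▸ hkS, hak⟩, ?_⟩
    obtain ⟨k', h1, h2, h3, h4⟩ := hF p hp
    refine ⟨k', h1, h2, by simp [h3], ?_⟩
    intro x hx hxk
    have hxa : x < a + 1 := by
      simp only [Finset.mem_insert] at hx
      rcases hx with rfl | hx
      · omega
      · have : x ≤ st.1.sup id := Finset.le_sup (f := id) hx
        omega
    have : x ∈ A k' ∩ Iio (a + 1) := ⟨hxk, hxa⟩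
    rw [h4] at this
    exact this.1

/-- The step lemma. -/
lemma step (hinf : ∀ i, (A i).Infinite) (had : ∀ i j, i ≠ j → (A i ∩ A j).Finite)
    (T : Set (Set ι × ι)) (hT : T.Countable)
    (hT' : ∀ p ∈ T, ∀ n : ℕ, {k ∈ p.1 | A k ∩ Iio n = A p.2 ∩ Iio n}.Infinite) :
    ∃ D : Set ℕ, D.Infinite ∧ (∀ i, (D ∩ A i).Finite) ∧
      ∀ p ∈ T, (∀ n : ℕ, ∃ k ∈ p.1, ¬ (D ∩ A k ⊆ Iio n)) ∧
        ∃ n : ℕ, {k ∈ p.1 | D ∩ A k ⊆ Iio n}.Infinite := by
  classical
  -- enumeration of tasks, each infinitely often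
  obtain ⟨e, he⟩ : ∃ e : ℕ → ι, Function.Surjective e := exists_surjective_nat ι
  have : Countable T := hT.to_subtype
  obtain ⟨t0, ht0⟩ : ∃ t0 : ℕ → Option T, Function.Surjective t0 := exists_surjective_nat _
  let t : ℕ → Option (Set ι × ι) := fun m => (t0 (Nat.unpair m).1).map Subtype.val
  have ht : ∀ m p, t m = some p → p ∈ T := by
    intro m p hp
    simp only [t, Option.map_eq_some_iff] at hp
    obtain ⟨a, -, rfl⟩ := hp
    exact a.2
  have htinf : ∀ p ∈ T, ∀ N : ℕ, ∃ m ≥ N, t m = some p := by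
    intro p hp N
    obtain ⟨j, hj⟩ := ht0 (some ⟨p, hp⟩)
    refine ⟨Nat.pair j N, Nat.right_le_pair j N, ?_⟩
    simp [t, hj]
  have hstep : ∀ (m : ℕ) (st : Finset ℕ × Finset ι), ∃ (st' : Finset ℕ × Finset ι) (a : ℕ),
      st'.1 = insert a st.1 ∧ st.2 ⊆ st'.2 ∧ e m ∈ st'.2 ∧
      m ≤ a ∧ (∀ x ∈ st.1, x < a) ∧ (∀ j ∈ st.2, a ∉ A j) ∧
      ∀ p, t m = some p → (∃ k ∈ p.1, a ∈ A k) ∧
        ∃ k ∈ p.1, k ∉ st.2 ∧ k ∈ st'.2 ∧ ∀ x ∈ st'.1, x ∈ A k → x ∈ A p.2 := by
    intro m st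
    exact exists_step hinf had st m (e m) (t m) (fun p hp => hT' p (ht m p hp))
  choose nxt pt h1 h2 h3 h4 h5 h6 h7 using hstep
  let st : ℕ → Finset ℕ × Finset ι := fun m => Nat.rec (∅, ∅) (fun m s => nxt m s) m
  have hst : ∀ m, st (m + 1) = nxt m (st m) := fun m => rfl
  let a : ℕ → ℕ := fun m => pt m (st m)
  have hFmono : Monotone (fun m => (st m).2) := by
    refine monotone_nat_of_le_succ ?_
    intro m
    simp only [hst]
    exact h2 m (st m)
  have hs : ∀ m x, x ∈ (st m).1 ↔ ∃ l < m, x = a l := by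
    intro m
    induction m with
    | zero => intro x; simp [st]
    | succ m ih =>
      intro x
      rw [hst, h1, Finset.mem_insert, ih]
      constructor
      · rintro (rfl | ⟨l, hl, rfl⟩)
        · exact ⟨m, by omega, rfl⟩
        · exact ⟨l, by omega, rfl⟩
      · rintro ⟨l, hl, rfl⟩
        rcases Nat.lt_succ_iff_lt_or_eq.1 hl with h | h
        · exact Or.inr ⟨l, h, rfl⟩
        · left; rw [h]
  have hamono : StrictMono a := by
    refine strictMono_nat_of_lt_succ ?_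
    intro m
    exact h5 (m + 1) (st (m + 1)) (a m) ((hs (m + 1) (a m)).2 ⟨m, by omega, rfl⟩)
  -- avoidance
  have havoid : ∀ m l j, m ≤ l → j ∈ (st m).2 → a l ∉ A j := by
    intro m l j hml hj
    exact h6 l (st l) j (hFmono hml hj)
  refine ⟨range a, infinite_range_of_injective hamono.injective, ?_, ?_⟩
  · intro i
    obtain ⟨m, rfl⟩ := he i
    have hm : e m ∈ (st (m + 1)).2 := h3 m (st m)
    refine ((Finset.range (m + 1)).image a).finite_toSet.subset ?_
    rintro x ⟨⟨l, rfl⟩, hx⟩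
    simp only [Finset.coe_image, Finset.coe_range, mem_image, mem_Iio]
    refine ⟨l, ?_, rfl⟩
    by_contra hl
    exact havoid (m + 1) l (e m) (by omega) hm hx
  · intro p hp
    constructor
    · intro n
      obtain ⟨m, hm, hmp⟩ := htinf p hp n
      obtain ⟨⟨k, hk, hak⟩, -⟩ := h7 m (st m) p hmp
      refine ⟨k, hk, ?_⟩
      intro hsub
      have := hsub ⟨⟨m, rfl⟩, hak⟩
      have h4' := h4 m (st m)
      simp only [mem_Iio] at this
      change m ≤ a m at h4'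
      change a m < n at this
      omega
    · obtain ⟨m0, hm0⟩ := he p.2
      have hb : p.2 ∈ (st (m0 + 1)).2 := hm0 ▸ h3 m0 (st m0)
      refine ⟨a m0 + 1, ?_⟩
      -- witnesses
      have hw : ∀ m ≥ m0 + 1, t m = some p → ∃ k ∈ p.1, k ∉ (st m).2 ∧ k ∈ (st (m + 1)).2 ∧
          range a ∩ A k ⊆ Iio (a m0 + 1) := by
        intro m hm hmp
        obtain ⟨-, k, hk, hk1, hk2, hk3⟩ := h7 m (st m) p hmp
        refine ⟨k, hk, hk1, hk2, ?_⟩
        rintro x ⟨⟨l, rfl⟩, hx⟩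
        have hl : l < m + 1 := by
          by_contra hl
          exact havoid (m + 1) l k (by omega) hk2 hx
        have hal : a l ∈ A p.2 := by
          refine hk3 (a l) ?_ hx
          exact (hs (m + 1) (a l)).2 ⟨l, hl, rfl⟩
        have hl' : l < m0 + 1 := by
          by_contra hl'
          exact havoid (m0 + 1) l p.2 (by omega) hb hal
        have : a l ≤ a m0 := hamono.monotone (by omega)
        simp only [mem_Iio]
        omega
      -- infinitely many
      intro hfin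
      have hbound : ∃ M, ∀ k ∈ {k ∈ p.1 | range a ∩ A k ⊆ Iio (a m0 + 1)}, k ∈ (st M).2 := by
        choose g hg using he
        obtain ⟨M, hM⟩ := (hfin.image g).bddAbove
        refine ⟨M + 1, ?_⟩
        intro k hk
        have h8 : g k ≤ M := hM (mem_image_of_mem g hk)
        have h9 : k ∈ (st (g k + 1)).2 := by
          have := h3 (g k) (st (g k))
          rw [hg] at this
          exact this
        exact hFmono (by omega : g k + 1 ≤ M + 1) h9
      obtain ⟨M, hM⟩ := hbound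
      obtain ⟨m, hm, hmp⟩ := htinf p hp (max M (m0 + 1))
      obtain ⟨k, hk, hk1, -, hk3⟩ := hw m (le_trans (le_max_right _ _) hm) hmp
      exact hk1 (hFmono (le_trans (le_max_left _ _) hm) (hM k ⟨hk, hk3⟩))

end Step

/-! ### Transfinite recursion -/

lemma exists_of_wf {W β : Type*} [LinearOrder W] [WellFoundedLT W] [Nonempty β]
    (R : W → (W → β) → β → Prop)
    (hcongr : ∀ γ f g b, (∀ x < γ, f x = g x) → R γ f b → R γ g b)
    (hex : ∀ γ f, (∀ x < γ, R x f (f x)) → ∃ b, R γ f b) :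
    ∃ f : W → β, ∀ γ, R γ f (f γ) := by
  classical
  let d : β := Classical.arbitrary β
  let G : ∀ γ : W, (∀ x, x < γ → β) → β := fun γ ih =>
    if h : ∃ b, R γ (fun x => if h : x < γ then ih x h else d) b then h.choose else d
  let f : W → β := (wellFounded_lt (α := W)).fix G
  have hf : ∀ γ, f γ = G γ (fun x _ => f x) := fun γ => WellFounded.fix_eq _ G γ
  refine ⟨f, ?_⟩
  intro γ
  induction γ using WellFoundedLT.induction with
  | ind γ ih =>
    obtain ⟨b, hb⟩ := hex γ f ih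
    have hagree : ∀ x < γ, f x = (fun x => if _h : x < γ then f x else d) x := by
      intro x hx
      simp [hx]
    have hex' : ∃ b, R γ (fun x => if _h : x < γ then f x else d) b :=
      ⟨b, hcongr γ _ _ b hagree hb⟩
    have h1 : f γ = hex'.choose := by
      rw [hf]
      simp only [G]
      rw [dif_pos hex']
    rw [h1]
    refine hcongr γ _ _ _ ?_ hex'.choose_spec
    intro x hx
    exact (hagree x hx).symm

/-! ### Properties of `ω₁` -/

lemma countable_Iio (γ : W1) : (Iio γ).Countable := by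
  have h1 : ∀ (o : Ordinal.{0}) (_ : o = (ℵ₁ : Cardinal.{0}).ord) (δ : o.ToType),
      #(Iio δ) < ℵ₁ := by
    rintro _ rfl δ
    simpa using mk_Iio_lt δ
  have h2 : #(Iio γ) < ℵ₁ := h1 _ (by simp) γ
  rw [← Cardinal.succ_aleph0, Order.lt_succ_iff] at h2
  exact Cardinal.le_aleph0_iff_set_countable.1 h2

lemma not_countable_univ : ¬ (univ : Set W1).Countable := by
  intro h
  have h1 : #W1 ≤ ℵ₀ := by
    have := h.le_aleph0
    rwa [Cardinal.mk_univ] at this
  rw [Cardinal.mk_toType] at h1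
  simp at h1

lemma countable_Iic (γ : W1) : (Iic γ).Countable := by
  rw [← Iio_union_right]
  exact (countable_Iio γ).union (countable_singleton γ)

/-- An uncountable subset of `ω₁` is unbounded. -/
lemma exists_ge_of_not_countable {X : Set W1} (hX : ¬ X.Countable) (α : W1) : ∃ γ ∈ X, α ≤ γ := by
  by_contra hcon
  push Not at hcon
  exact hX ((countable_Iio α).mono hcon)

/-- A countable subset of `ω₁` is strictly bounded. -/
lemma exists_bound {C : Set W1} (hC : C.Countable) : ∃ α : W1, ∀ c ∈ C, c < α := by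
  by_contra hcon
  push Not at hcon
  have : (univ : Set W1) ⊆ ⋃ c ∈ C, Iic c := by
    intro α _
    obtain ⟨c, hc, hac⟩ := hcon α
    simp only [mem_iUnion]
    exact ⟨c, hc, hac⟩
  exact not_countable_univ ((hC.biUnion (fun c _ => countable_Iic c)).mono this)

/-! ### The key property of superclub sequences -/

/-- A superclub sequence guesses, inside each uncountable set, a set of indices that accumulates
at a member of the family. -/
lemma exists_good {S : W1 → Set W1} (hS : IsSuperclubSequence S) {A : W1 → Set ℕ}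
    {X : Set W1} (hX : ¬ X.Countable) :
    ∃ α β : W1, β < α ∧ S α ⊆ X ∧ ∀ n : ℕ, {k ∈ S α | A k ∩ Iio n = A β ∩ Iio n}.Infinite := by
  classical
  obtain ⟨B, hBX, hB, hstat⟩ := hS.2 X hX
  have h1 : ∃ β ∈ B, ∀ n : ℕ, ¬ {k ∈ B | A k ∩ Iio n = A β ∩ Iio n}.Countable := by
    by_contra hcon
    push Not at hcon
    choose! f hf using hcon
    apply hB
    have hsub : B ⊆ ⋃ q : ℕ × Finset ℕ, {β ∈ B | f β = q.1 ∧ A β ∩ Iio q.1 = ↑q.2} := by
      intro β hβ
      simp only [mem_iUnion]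
      have hfin : (A β ∩ Iio (f β)).Finite := (finite_Iio _).subset inter_subset_right
      exact ⟨(f β, hfin.toFinset), hβ, rfl, by simp⟩
    refine Countable.mono hsub (countable_iUnion ?_)
    rintro ⟨n, F⟩
    by_cases hne : ({β ∈ B | f β = n ∧ A β ∩ Iio n = ↑F}).Nonempty
    · obtain ⟨β, hβ, hβn, hβF⟩ := hne
      refine (hf β hβ).mono ?_
      rintro k ⟨hk, hkn, hkF⟩
      refine ⟨hk, ?_⟩
      simp only at hβn hβF hkF
      rw [hβn, hkF, hβF]
    · rw [not_nonempty_iff_eq_empty] at hne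
      simp only at hne ⊢
      rw [hne]
      exact countable_empty
  obtain ⟨β, hβ, hβn⟩ := h1
  -- choose countable infinite subsets
  have h2 : ∀ n : ℕ, ∃ C ⊆ {k ∈ B | A k ∩ Iio n = A β ∩ Iio n}, C.Infinite ∧ C.Countable := by
    intro n
    have hinf : {k ∈ B | A k ∩ Iio n = A β ∩ Iio n}.Infinite :=
      fun hfin => hβn n hfin.countable
    let g := hinf.natEmbedding
    refine ⟨range (fun m => (g m : W1)), ?_, ?_, countable_range _⟩
    · rintro x ⟨m, rfl⟩
      exact (g m).2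
    · refine infinite_range_of_injective ?_
      exact Subtype.val_injective.comp g.injective
  choose C hC1 hC2 hC3 using h2
  obtain ⟨α0, hα0⟩ : ∃ α0 : W1, ∀ c ∈ (insert β (⋃ n, C n)), c < α0 :=
    exists_bound ((countable_iUnion hC3).insert β)
  have hclub : IsClub (Ici α0) := by
    refine ⟨?_, ?_⟩
    · intro d hd hne _ a ha
      obtain ⟨x, hx⟩ := hne
      exact le_trans (hd hx) (ha.1 hx)
    · intro x
      exact ⟨max x α0, mem_Ici.2 (le_max_right _ _), le_max_left _ _⟩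
  obtain ⟨α, hα1, hα2⟩ := hstat hclub
  refine ⟨α, β, lt_of_lt_of_le (hα0 β (mem_insert _ _)) hα2, ?_, ?_⟩
  · rw [← show B ∩ Iio α = S α from hα1]
    exact inter_subset_left.trans hBX
  · intro n
    refine (hC2 n).mono ?_
    intro k hk
    have hk1 := hC1 n hk
    refine ⟨?_, hk1.2⟩
    rw [← show B ∩ Iio α = S α from hα1]
    exact ⟨hk1.1, lt_of_lt_of_le (hα0 k (mem_insert_of_mem _ (mem_iUnion.2 ⟨n, hk⟩))) hα2⟩

/-! ### The family -/

/-- The requirement on the `γ`-th member `D` of the family, given the previous ones. -/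
def Req (S : W1 → Set W1) (γ : W1) (A : W1 → Set ℕ) (D : Set ℕ) : Prop :=
  D.Infinite ∧ (∀ n : ℕ, (D ∩ {x | (Nat.unpair x).1 = n}).Finite) ∧ (∀ β < γ, (D ∩ A β).Finite) ∧
    ∀ α ≤ γ, ∀ β < γ,
      (∀ n : ℕ, {k | k ∈ S α ∧ k < γ ∧ A k ∩ Iio n = A β ∩ Iio n}.Infinite) →
        (∀ n : ℕ, ∃ k ∈ S α, k < γ ∧ ¬ (D ∩ A k ⊆ Iio n)) ∧
          ∃ n : ℕ, {k | k ∈ S α ∧ k < γ ∧ D ∩ A k ⊆ Iio n}.Infinite

lemma req_congr (S : W1 → Set W1) (γ : W1) (f g : W1 → Set ℕ) (D : Set ℕ)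
    (hfg : ∀ x < γ, f x = g x) (h : Req S γ f D) : Req S γ g D := by
  obtain ⟨h1, h2, h3, h4⟩ := h
  refine ⟨h1, h2, fun β hβ => hfg β hβ ▸ h3 β hβ, ?_⟩
  intro α hα β hβ hinf
  obtain ⟨h5, n, h6⟩ := h4 α hα β hβ (by
    intro n
    refine (hinf n).mono ?_
    rintro k ⟨hk1, hk2, hk3⟩
    refine ⟨hk1, hk2, ?_⟩
    rw [hfg k hk2, hfg β hβ]
    exact hk3)
  refine ⟨?_, n, ?_⟩
  · intro n
    obtain ⟨k, hk1, hk2, hk3⟩ := h5 n
    exact ⟨k, hk1, hk2, hfg k hk2 ▸ hk3⟩
  · refine h6.mono ?_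
    rintro k ⟨hk1, hk2, hk3⟩
    exact ⟨hk1, hk2, hfg k hk2 ▸ hk3⟩

lemma infinite_column (n : ℕ) : {x : ℕ | (Nat.unpair x).1 = n}.Infinite := by
  refine (infinite_range_of_injective (f := fun m : ℕ => Nat.pair n m) ?_).mono ?_
  · intro a b hab
    simpa using hab
  · rintro x ⟨m, rfl⟩
    simp

lemma req_exists (S : W1 → Set W1) (γ : W1) (A : W1 → Set ℕ)
    (h : ∀ x < γ, Req S x A (A x)) : ∃ D, Req S γ A D := by
  classical
  have : Countable (Iio γ) := (countable_Iio γ).to_subtype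
  let F : ℕ ⊕ Iio γ → Set ℕ := Sum.elim (fun n => {x | (Nat.unpair x).1 = n}) (fun x => A x.1)
  have hinf : ∀ i, (F i).Infinite := by
    rintro (n | x)
    · exact infinite_column n
    · exact (h x.1 x.2).1
  have had : ∀ i j, i ≠ j → (F i ∩ F j).Finite := by
    rintro (n | x) (m | y) hij
    · have : F (Sum.inl n) ∩ F (Sum.inl m) = ∅ := by
        ext z
        simp only [F, Sum.elim_inl, mem_inter_iff, mem_ofPred_eq, mem_empty_iff_false, iff_false,
          not_and]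
        intro h1 h2
        exact hij (by rw [← h1, ← h2])
      rw [this]
      exact finite_empty
    · rw [inter_comm]
      exact (h y.1 y.2).2.1 n
    · exact (h x.1 x.2).2.1 m
    · have hne : x.1 ≠ y.1 := by
        intro h1
        exact hij (by rw [Subtype.ext h1])
      rcases lt_or_gt_of_ne hne with hlt | hlt
      · rw [inter_comm]
        exact (h y.1 y.2).2.2.1 x.1 hlt
      · exact (h x.1 x.2).2.2.1 y.1 hlt
  let tk : W1 × Iio γ → Set (ℕ ⊕ Iio γ) × (ℕ ⊕ Iio γ) :=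
    fun q => (Sum.inr '' {k : Iio γ | k.1 ∈ S q.1}, Sum.inr q.2)
  let T : Set (Set (ℕ ⊕ Iio γ) × (ℕ ⊕ Iio γ)) :=
    {p | (∃ q : W1 × Iio γ, q.1 ≤ γ ∧ p = tk q) ∧
      ∀ n : ℕ, {k ∈ p.1 | F k ∩ Iio n = F p.2 ∩ Iio n}.Infinite}
  have hT : T.Countable := by
    have h1 : ((Iic γ) ×ˢ (univ : Set (Iio γ))).Countable :=
      (countable_Iic γ).prod countable_univ
    refine (h1.image tk).mono ?_
    rintro p ⟨⟨q, hq, rfl⟩, -⟩
    exact ⟨q, ⟨hq, mem_univ _⟩, rfl⟩
  obtain ⟨D, hD1, hD2, hD3⟩ := step hinf had T hT (fun p hp => hp.2)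
  refine ⟨D, hD1, fun n => hD2 (Sum.inl n), fun β hβ => hD2 (Sum.inr ⟨β, hβ⟩), ?_⟩
  intro α hα β hβ hinf'
  obtain ⟨h5, n, h6⟩ := hD3 (tk (α, ⟨β, hβ⟩)) (by
    refine ⟨⟨(α, ⟨β, hβ⟩), hα, rfl⟩, ?_⟩
    intro n
    have h7 : ({k : Iio γ | k.1 ∈ S α ∧ A k.1 ∩ Iio n = A β ∩ Iio n}).Infinite := by
      intro hfin
      refine hinf' n ((hfin.image Subtype.val).subset ?_)
      rintro k ⟨hk1, hk2, hk3⟩
      exact ⟨⟨k, hk2⟩, ⟨hk1, hk3⟩, rfl⟩
    refine (h7.image (f := (Sum.inr : Iio γ → ℕ ⊕ Iio γ)) Sum.inr_injective.injOn).mono ?_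
    rintro _ ⟨k, ⟨hk1, hk2⟩, rfl⟩
    exact ⟨⟨k, hk1, rfl⟩, hk2⟩)
  refine ⟨?_, n, ?_⟩
  · intro n
    obtain ⟨_, ⟨k, hk, rfl⟩, hk'⟩ := h5 n
    exact ⟨k.1, hk, k.2, hk'⟩
  · have h7 : {k : Iio γ | k.1 ∈ S α ∧ D ∩ A k.1 ⊆ Iio n}.Infinite := by
      intro hfin
      refine h6 ((hfin.image Sum.inr).subset ?_)
      rintro _ ⟨⟨k, hk, rfl⟩, hk'⟩
      exact ⟨k, ⟨hk, hk'⟩, rfl⟩
    refine (h7.image Subtype.val_injective.injOn).mono ?_
    rintro _ ⟨k, ⟨hk1, hk2⟩, rfl⟩
    exact ⟨hk1, k.2, hk2⟩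

lemma not_countable_of_mk {X : Set W1} (h : #X = ℵ₁) : ¬ X.Countable := by
  intro hc
  have h1 := hc.le_aleph0
  rw [h] at h1
  exact absurd h1 (not_le.2 (by simp))

/-- **Superclub implies that there is an inseparable family of size `ℵ₁` containing no Luzin
subsequence.** -/
theorem result (h : SuperclubPrinciple) :
    ∃ A : W1 → Set ℕ, IsInseparable A ∧ ¬ ContainsLuzinSubsequence A := by
  classical
  obtain ⟨S, hS⟩ := h
  obtain ⟨A, hA⟩ := exists_of_wf (Req S) (req_congr S) (req_exists S)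
  have had : IsAlmostDisjoint A := by
    have h1 : ∀ β γ, β ≠ γ → (A β ∩ A γ).Finite := by
      intro β γ hne
      rcases lt_or_gt_of_ne hne with hlt | hlt
      · rw [inter_comm]
        exact (hA γ).2.2.1 β hlt
      · exact (hA β).2.2.1 γ hlt
    refine ⟨fun β => (hA β).1, ?_, h1⟩
    intro β γ hβγ
    by_contra hne
    have := h1 β γ hne
    rw [← hβγ, inter_self] at this
    exact (hA β).1 this
  refine ⟨A, ⟨had, ?_⟩, ?_⟩
  · rintro B - ⟨hX, hY⟩
    have hX := not_countable_of_mk hX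
    have hY := not_countable_of_mk hY
    -- uniformize
    have key : ∀ P : W1 → Set ℕ, ¬ {β : W1 | (P β).Finite}.Countable →
        ∃ n : ℕ, ¬ {β : W1 | P β ⊆ Iio n}.Countable := by
      intro P hP
      by_contra hcon
      push Not at hcon
      refine hP ((countable_iUnion hcon).mono ?_)
      intro β hβ
      obtain ⟨N, hN⟩ := (show (P β).Finite from hβ).bddAbove
      simp only [mem_iUnion]
      refine ⟨N + 1, ?_⟩
      intro x hx
      exact Nat.lt_succ_of_le (hN hx)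
    obtain ⟨n, hn⟩ := key _ hX
    obtain ⟨m, hm⟩ := key _ hY
    obtain ⟨α, β, hβα, hSα, hgood⟩ := exists_good hS (A := A) hn
    obtain ⟨γ, hγ, hαγ⟩ := exists_ge_of_not_countable hm α
    have hreq := (hA γ).2.2.2 α hαγ β (lt_of_lt_of_le hβα hαγ) (by
      intro n
      refine (hgood n).mono ?_
      rintro k ⟨hk1, hk2⟩
      exact ⟨hk1, lt_of_lt_of_le (hS.1 α hk1) hαγ, hk2⟩)
    obtain ⟨k, hk1, hk2, hk3⟩ := hreq.1 (max n m)
    apply hk3
    rintro x ⟨hxγ, hxk⟩
    by_cases hxB : x ∈ B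
    · have : x ∈ A γ \ Bᶜ := ⟨hxγ, by simpa using hxB⟩
      exact lt_of_lt_of_le (mem_Iio.1 (hγ this)) (le_max_right _ _)
    · have : x ∈ A k \ B := ⟨hxk, hxB⟩
      exact lt_of_lt_of_le (mem_Iio.1 (hSα hk1 this)) (le_max_left _ _)
  · rintro ⟨X, e, hX, he, rfl, -, hLuzin⟩
    obtain ⟨α, β, hβα, hSα, hgood⟩ := exists_good hS (A := A) hX
    obtain ⟨_, ⟨ξ, rfl⟩, hαγ⟩ := exists_ge_of_not_countable hX α
    have hreq := (hA (e ξ)).2.2.2 α hαγ β (lt_of_lt_of_le hβα hαγ) (by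
      intro n
      refine (hgood n).mono ?_
      rintro k ⟨hk1, hk2⟩
      exact ⟨hk1, lt_of_lt_of_le (hS.1 α hk1) hαγ, hk2⟩)
    obtain ⟨n, hn⟩ := hreq.2
    apply hn
    refine ((hLuzin ξ n).image e).subset ?_
    rintro k ⟨hk1, hk2, hk3⟩
    obtain ⟨η, rfl⟩ := hSα hk1
    exact ⟨η, ⟨he.lt_iff_lt.1 hk2, hk3⟩, rfl⟩

end Pool.Agent.Results.MP_a36908_lc.Superclub
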